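import Pool.Agent.K3h1.SM.Gen

set_option autoImplicit false
set_option linter.unusedSectionVars false

/-!
# A box of linear size carrying a compression of several tensors
-/

namespace Pool.Agent.K3h1.SM

open Finset Pool.Agent.H346R3.RR

universe u v w x

section

variable {ι : Type*} [DecidableEq ι] [Fintype ι] {Q : ι → Type w} [∀ i, Fintype (Q i)]
variable [∀ i, DecidableEq (Q i)] {K : Type u} [Field K] {J : ι → Type x} [∀ i, Fintype (J i)]
variable {τ : Type*} [Fintype τ]

theorem choose_step (T : τ → (∀ i, Q i) → K) (p : ∀ i, J i → Q i → K) (β : ι) :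
    ∃ (X : Finset (Q β)) (w : J β → Q β → K),
      X.card ≤ Fintype.card τ * Fintype.card (∀ i, J i) ∧
      (∀ j y, y ∉ X → w j y = 0) ∧
      ∀ t (j : ∀ i, J i), mext (T t) (Function.update (fun i => p i (j i)) β (w (j β))) =
        mext (T t) (fun i => p i (j i)) := by
  classical
  let N : Q β → (τ × (∀ i, J i) → K) := fun y a =>
    mext (T a.1) (Function.update (fun i => p i (a.2 i)) β (Pi.single y 1))
  obtain ⟨κ, a, ha, hspan, hind⟩ := exists_linearIndependent' K N
  have : Finite κ := Finite.of_injective a ha
  have : Fintype κ := Fintype.ofFinite κ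
  have hcard : Fintype.card κ ≤ Fintype.card τ * Fintype.card (∀ i, J i) := by
    have h1 := hind.fintype_card_le_finrank
    rw [Module.finrank_fintype_fun_eq_card, Fintype.card_prod] at h1
    exact h1
  have h2 : ∀ y, ∃ c : κ → K, ∑ k, c k • (N ∘ a) k = N y := by
    intro y
    rw [← Submodule.mem_span_range_iff_exists_fun K, hspan]
    exact Submodule.subset_span ⟨y, rfl⟩
  choose c hc using h2
  refine ⟨Finset.univ.image a, fun j z => ∑ k, if a k = z then ∑ y, p β j y * c y k else 0,
    (Finset.card_image_le).trans hcard, ?_, ?_⟩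
  · intro j y hy
    apply Finset.sum_eq_zero
    intro k _
    rw [if_neg]
    intro h
    exact hy (Finset.mem_image.mpr ⟨k, Finset.mem_univ k, h⟩)
  · intro t j
    have hN : ∀ y, mext (T t) (Function.update (fun i => p i (j i)) β (Pi.single y 1)) =
        N y (t, j) := fun y => rfl
    have hNy : ∀ y, N y (t, j) = ∑ k, c y k * N (a k) (t, j) := by
      intro y
      rw [← hc y, Finset.sum_apply]
      rfl
    rw [mext_update]
    simp only [hN]
    have h3 : mext (T t) (fun i => p i (j i)) = ∑ y, p β (j β) y * N y (t, j) := by
      have h4 := mext_update (T t) (fun i => p i (j i)) β (p β (j β))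
      rw [Function.update_eq_self] at h4
      exact h4
    rw [h3]
    simp only [Finset.sum_mul]
    rw [Finset.sum_comm]
    have h5 : ∀ k : κ, ∑ z, (if a k = z then ∑ y, p β (j β) y * c y k else 0) * N z (t, j) =
        (∑ y, p β (j β) y * c y k) * N (a k) (t, j) := by
      intro k
      rw [Finset.sum_eq_single (a k)]
      · rw [if_pos rfl]
      · intro z _ hz
        rw [if_neg (Ne.symm hz), zero_mul]
      · intro h
        exact absurd (Finset.mem_univ _) h
    simp only [h5]
    simp only [Finset.sum_mul]
    rw [Finset.sum_comm]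
    apply Finset.sum_congr rfl
    intro y _
    rw [hNy y, Finset.mul_sum]
    apply Finset.sum_congr rfl
    intro k _
    ring

theorem choose_box (T : τ → (∀ i, Q i) → K) (p : ∀ i, J i → Q i → K) :
    ∃ (X : ∀ i, Finset (Q i)) (p' : ∀ i, J i → Q i → K),
      (∀ i, (X i).card ≤ Fintype.card τ * Fintype.card (∀ i, J i)) ∧
      (∀ i j y, y ∉ X i → p' i j y = 0) ∧
      ∀ t (j : ∀ i, J i), mext (T t) (fun i => p' i (j i)) = mext (T t) (fun i => p i (j i)) := by
  classical
  have h : ∀ S : Finset ι, ∃ (X : ∀ i, Finset (Q i)) (p' : ∀ i, J i → Q i → K),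
      (∀ i ∈ S, (X i).card ≤ Fintype.card τ * Fintype.card (∀ i, J i)) ∧
      (∀ i ∈ S, ∀ j y, y ∉ X i → p' i j y = 0) ∧
      ∀ t (j : ∀ i, J i), mext (T t) (fun i => p' i (j i)) = mext (T t) (fun i => p i (j i)) := by
    intro S
    induction S using Finset.induction_on with
    | empty => exact ⟨fun _ => ∅, p, by simp, by simp, fun t j => rfl⟩
    | insert β S hβ ih =>
      obtain ⟨X, p', hX, hp', heq⟩ := ih
      obtain ⟨Y, w, hY, hw, hw2⟩ := choose_step T p' β
      refine ⟨Function.update X β Y, Function.update p' β w, ?_, ?_, ?_⟩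
      · intro i hi
        by_cases h : i = β
        · subst h
          rw [Function.update_self]
          exact hY
        · rw [Function.update_of_ne h]
          exact hX i ((Finset.mem_insert.mp hi).resolve_left h)
      · intro i hi j y hy
        by_cases h : i = β
        · subst h
          rw [Function.update_self] at hy ⊢
          exact hw j y hy
        · rw [Function.update_of_ne h] at hy ⊢
          exact hp' i ((Finset.mem_insert.mp hi).resolve_left h) j y hy
      · intro t j
        rw [← heq t j, ← hw2 t j]
        congr 1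
        funext i
        by_cases h : i = β
        · subst h
          simp only [Function.update_self]
        · simp only [Function.update_of_ne h]
  obtain ⟨X, p', h1, h2, h3⟩ := h Finset.univ
  exact ⟨X, p', fun i => h1 i (Finset.mem_univ i), fun i => h2 i (Finset.mem_univ i), h3⟩

end

end Pool.Agent.K3h1.SM
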