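import Pool.Agent.H346R3.RR.TheoremC

set_option autoImplicit false
set_option linter.unusedSectionVars false

/-!
# Ranks under extension of the field

For every family `R` of partitions and every `l` there is `G` such that, over every field `F` and
for every field homomorphism `c : F → L`, a tensor over `F` whose image over `L` is a sum of less
than `l` products of shapes in `R` is itself a sum of less than `G` products of shapes in `R`.
-/

namespace Pool.Agent.K3h1.SM

open Finset Pool.Agent.H346R3.RR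

universe u v w

section

variable {ι : Type*} [DecidableEq ι] {Q : ι → Type*} {K : Type*} [Field K]
variable {L : Type*} [Field L]

/-- A product of elements of the extended algebra, multiplied by a scalar and projected down to
the small field, is a finite sum of products of elements of the small algebra. -/
theorem project_prod {A : Subalgebra K ((∀ i, Q i) → K)} (hA : EvClosed A) (c : K →+* L)
    (q₀ : ∀ i, Q i) (π : L → K) (hadd : ∀ x y, π (x + y) = π x + π y)
    (hmul : ∀ x z, π (x * c z) = z * π x)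
    (g : Finset ι → ((∀ i, Q i) → L)) (hgA : ∀ I, g I ∈ AL A c) (hgD : ∀ I, g I ∈ Dep Q L I)
    (S : Finset (Finset ι)) (hS : S.Nonempty) :
    ∀ κ : L, ∃ (m : ℕ) (a : Fin m → Finset ι → ((∀ i, Q i) → K)),
      (∀ t I, a t I ∈ A) ∧ (∀ t I, a t I ∈ Dep Q K I) ∧
      ∀ x, π (κ * ∏ I ∈ S, g I x) = ∑ t, ∏ I ∈ S, a t I x := by
  classical
  have hsum : ∀ {n : ℕ} (f : Fin n → L), π (∑ j, f j) = ∑ j, π (f j) := by
    intro n f
    have h0 : π 0 = 0 := by
      have := hadd 0 0
      simpa using this
    let π' : L →+ K := ⟨⟨π, h0⟩, hadd⟩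
    exact map_sum π' f Finset.univ
  induction hS using Finset.Nonempty.cons_induction with
  | singleton I₀ =>
    intro κ
    obtain ⟨m, κ', a, haA, haD, hrep⟩ := AL_rep hA c q₀ I₀ (hgA I₀) (hgD I₀)
    refine ⟨1, fun _ I => if I = I₀ then ∑ j, π (κ * κ' j) • a j else 0, ?_, ?_, ?_⟩
    · intro t I
      by_cases h : I = I₀
      · simp only [h, if_true]
        exact A.sum_mem (fun j _ => A.smul_mem (haA j) _)
      · simp only [h, if_false]
        exact A.zero_mem
    · intro t I
      by_cases h : I = I₀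
      · simp only [h, if_true]
        exact Submodule.sum_mem _ (fun j _ => Submodule.smul_mem _ _ (haD j))
      · simp only [h, if_false]
        exact Submodule.zero_mem _
    · intro x
      rw [Finset.prod_singleton, hrep x, Finset.mul_sum, hsum]
      simp only [Finset.univ_unique, Finset.sum_singleton, Finset.prod_singleton, if_true,
        Finset.sum_apply, Pi.smul_apply, smul_eq_mul]
      apply Finset.sum_congr rfl
      intro j _
      rw [← mul_assoc, hmul, mul_comm]
  | cons I₀ S hI₀ hS ih =>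
    intro κ
    obtain ⟨m, κ', a, haA, haD, hrep⟩ := AL_rep hA c q₀ I₀ (hgA I₀) (hgD I₀)
    have h1 := fun j => ih (κ * κ' j)
    choose m' b hbA hbD hb using h1
    let e := (finSigmaFinEquiv (n := m')).symm
    refine ⟨∑ j, m' j, fun t I => if I = I₀ then a (e t).1 else b (e t).1 (e t).2 I, ?_, ?_, ?_⟩
    · intro t I
      by_cases h : I = I₀
      · simp only [h, if_true]
        exact haA _
      · simp only [h, if_false]
        exact hbA _ _ _
    · intro t I
      by_cases h : I = I₀
      · simp only [h, if_true]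
        exact haD _
      · simp only [h, if_false]
        exact hbD _ _ _
    · intro x
      rw [Finset.prod_cons, hrep x]
      have h2 : κ * ((∑ j, κ' j * c (a j x)) * ∏ I ∈ S, g I x) =
          ∑ j, ((κ * κ' j * ∏ I ∈ S, g I x) * c (a j x)) := by
        rw [Finset.sum_mul, Finset.mul_sum]
        apply Finset.sum_congr rfl
        intro j _
        ring
      rw [h2, hsum]
      have h3 : ∀ t, (∏ I ∈ Finset.cons I₀ S hI₀,
          (if I = I₀ then a (e t).1 else b (e t).1 (e t).2 I : (∀ i, Q i) → K) x) =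
          a (e t).1 x * ∏ I ∈ S, b (e t).1 (e t).2 I x := by
        intro t
        rw [Finset.prod_cons, if_pos rfl]
        congr 1
        apply Finset.prod_congr rfl
        intro I hI
        rw [if_neg]
        rintro rfl
        exact hI₀ hI
      rw [Finset.sum_congr rfl (fun t _ => h3 t)]
      rw [Equiv.sum_comp e (fun p : (Σ j, Fin (m' j)) => a p.1 x * ∏ I ∈ S, b p.1 p.2 I x)]
      rw [Fintype.sum_sigma]
      apply Finset.sum_congr rfl
      intro j _
      rw [hmul, hb j x, Finset.mul_sum]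

end

section

variable {ι : Type*} [DecidableEq ι] [Fintype ι]
variable (U : Ultrafilter ℕ) (K : ℕ → Type*) [∀ N, Field (K N)] {Q : ℕ → ι → Type*}

/-- an internal decomposition of the whole tensor descends to almost all stages -/
theorem internal_down [∀ N i, Nonempty (Q N i)] {k : ℕ}
    (P : Fin k → Finpartition (Finset.univ : Finset ι))
    (T : ∀ N, (∀ i, Q N i) → K N) (g : Fin k → Finset ι → ((∀ i, Qs Q i) → UK U K))
    (hgA : ∀ i I, g i I ∈ IntA U K) (hgD : ∀ i I, g i I ∈ Dep (Qs Q) (UK U K) I)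
    (hgT : ∀ x, star U K T x = ∑ i, ∏ I ∈ (P i).parts, g i I x) :
    ∀ᶠ N in (U : Filter ℕ), DecS P (fun _ => True) (T N) := by
  classical
  let q₀ : ∀ i, Qs Q i := fun i N => Classical.arbitrary (Q N i)
  choose F hF using hgA
  have hF2 : ∀ i I x, g i I x =
      umk U K (fun N => ev I (pr q₀ N) (F i I N) (pr x N)) := by
    intro i I x
    have h2 : g i I x = ev I q₀ (g i I) x := by rw [ev_of_subset q₀ (hgD i I) (le_refl _)]
    rw [h2, hF i I, ev_star]
    rfl
  have hx : ∀ x : (∀ i, Qs Q i), ∀ᶠ N in (U : Filter ℕ), T N (pr x N) =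
      ∑ i, ∏ I ∈ (P i).parts, ev I (pr q₀ N) (F i I N) (pr x N) := by
    intro x
    have h2 := hgT x
    simp only [hF2] at h2
    have h3 : (∑ i, ∏ I ∈ (P i).parts,
        umk U K (fun N => ev I (pr q₀ N) (F i I N) (pr x N))) =
        umk U K (∑ i, ∏ I ∈ (P i).parts,
          fun N => ev I (pr q₀ N) (F i I N) (pr x N)) := by
      rw [map_sum]
      apply Finset.sum_congr rfl
      intro i _
      rw [map_prod]
    rw [h3] at h2
    unfold H346R3.RR.star at h2
    rw [umk_eq] at h2
    filter_upwards [h2] with N hN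
    rw [hN, Finset.sum_apply]
    simp only [Finset.prod_apply]
  have h4 : ∀ᶠ N in (U : Filter ℕ), ∀ y : (∀ i, Q N i), T N y =
      ∑ i, ∏ I ∈ (P i).parts, ev I (pr q₀ N) (F i I N) y := by
    by_contra hcon
    rw [← Ultrafilter.eventually_not] at hcon
    have h5 : ∀ N, ∃ y : (∀ i, Q N i), (¬ ∀ y : (∀ i, Q N i), T N y =
        ∑ i, ∏ I ∈ (P i).parts, ev I (pr q₀ N) (F i I N) y) →
        T N y ≠ ∑ i, ∏ I ∈ (P i).parts, ev I (pr q₀ N) (F i I N) y := by
      intro N
      by_cases h : ∀ y : (∀ i, Q N i), T N y =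
        ∑ i, ∏ I ∈ (P i).parts, ev I (pr q₀ N) (F i I N) y
      · exact ⟨pr q₀ N, fun h' => (h' h).elim⟩
      · have h' := h
        push Not at h'
        obtain ⟨y, hy⟩ := h'
        exact ⟨y, fun _ => hy⟩
    choose y hy using h5
    have h6 := hx (fun i N => y N i)
    obtain ⟨N, hN1, hN2⟩ := (hcon.and h6).exists
    exact hy N hN1 hN2
  filter_upwards [h4] with N hN
  exact ⟨fun i I => ev I (pr q₀ N) (F i I N), fun i I => ev_mem_self _ _ _, fun y _ => hN y⟩

end

section

variable {ι : Type*} [DecidableEq ι] [Fintype ι] [Nonempty ι]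

/-- the map of ultraproducts induced by ring homomorphisms -/
noncomputable def ucs (U : Ultrafilter ℕ) (F : ℕ → Type u) [∀ N, Field (F N)]
    (L : ℕ → Type v) [∀ N, Field (L N)] (c : ∀ N, F N →+* L N) : UK U F →+* UK U L :=
  Ideal.Quotient.lift (UI U F) ((umk U L).comp (RingHom.pi
    (fun N => (c N).comp (Pi.evalRingHom F N)))) (by
      intro f hf
      rw [mem_UI] at hf
      have : (umk U L) 0 = 0 := map_zero _
      rw [RingHom.comp_apply, ← this, umk_eq]
      filter_upwards [hf] with N hN
      change c N (f N) = 0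
      rw [hN, map_zero])

theorem ucs_umk (U : Ultrafilter ℕ) (F : ℕ → Type u) [∀ N, Field (F N)]
    (L : ℕ → Type v) [∀ N, Field (L N)] (c : ∀ N, F N →+* L N) (f : ∀ N, F N) :
    ucs U F L c (umk U F f) = umk U L (fun N => c N (f N)) := rfl

/-- **ranks under extension of the field** -/
theorem rankExt (R : Set (Finpartition (Finset.univ : Finset ι))) (l : ℕ) :
    ∃ G : ℕ, ∀ (F : Type u) [Field F] (L : Type v) [Field L] (c : F →+* L) (Q : ι → Type w)
      [∀ i, Nonempty (Q i)] (T : (∀ i, Q i) → F),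
      Dec R l (fun _ => True) (fun x => c (T x)) → Dec R G (fun _ => True) T := by
  classical
  by_contra hcon
  push Not at hcon
  choose F instF L instL c Q instQ T hD hN using hcon
  let U : Ultrafilter ℕ := Ultrafilter.of Filter.atTop
  have hU : (U : Filter ℕ) ≤ Filter.atTop := Ultrafilter.of_le _
  have := finite_Sh R l
  have h1 : ∀ᶠ N in (U : Filter ℕ), ∃ σ : Sh R l, DecS (fun i => (σ.2 i).1)
      (fun _ => True) (fun x => c N (T N x)) := by
    apply Filter.Eventually.of_forall
    intro N
    rw [← Dec_iff]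
    exact hD N
  rw [Ultrafilter.eventually_exists_iff] at h1
  obtain ⟨σ, hσ⟩ := h1
  have h3 : ∀ N, ∃ g : Fin σ.1 → Finset ι → ((∀ i, Q N i) → L N),
      (∀ i I, g i I ∈ Dep (Q N) (L N) I) ∧
      (DecS (fun i => (σ.2 i).1) (fun _ => True) (fun x => c N (T N x)) →
        ∀ x, c N (T N x) = ∑ i, ∏ I ∈ (σ.2 i).1.parts, g i I x) := by
    intro N
    by_cases h : DecS (fun i => (σ.2 i).1) (fun _ => True) (fun x => c N (T N x))
    · obtain ⟨g, hg, hg2⟩ := h
      exact ⟨g, hg, fun _ x => hg2 x trivial⟩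
    · exact ⟨fun _ _ => 0, fun _ _ => Submodule.zero_mem _, fun h' => (h h').elim⟩
  choose g hg hg2 using h3
  let cs := ucs U F L c
  let Gs : Fin σ.1 → Finset ι → ((∀ i, Qs Q i) → UK U L) := fun i I => star U L (fun N => g N i I)
  have hGs : ∀ i I, Gs i I ∈ Dep (Qs Q) (UK U L) I := by
    intro i I x y hxy
    change umk U L (fun N => g N i I (pr x N)) = umk U L (fun N => g N i I (pr y N))
    congr 1
    funext N
    apply hg N i I
    intro j hj
    unfold pr
    rw [hxy j hj]
  have hGT : (∑ i, ∏ I ∈ (σ.2 i).1.parts, Gs i I) = fun x => cs (star U F T x) := by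
    funext x
    rw [Finset.sum_apply]
    simp only [Finset.prod_apply]
    have h4 : (∑ i, ∏ I ∈ (σ.2 i).1.parts, Gs i I x) =
        umk U L (∑ i, ∏ I ∈ (σ.2 i).1.parts, fun N => g N i I (pr x N)) := by
      rw [map_sum]
      apply Finset.sum_congr rfl
      intro i _
      rw [map_prod]
      rfl
    rw [h4]
    unfold H346R3.RR.star
    change _ = ucs U F L c (umk U F _)
    rw [ucs_umk, umk_eq]
    filter_upwards [hσ] with N hN
    rw [hg2 N hN (pr x N), Finset.sum_apply]
    simp only [Finset.prod_apply]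
  have hmem : (∑ i, ∏ I ∈ (σ.2 i).1.parts, Gs i I) ∈ AL (IntA (Q := Q) U F) cs := by
    rw [hGT, mem_AL]
    exact Submodule.subset_span ⟨star U F T, (mem_IntA U F).mpr ⟨T, rfl⟩, rfl⟩
  obtain ⟨g', hg'A, hg'D, hg'T⟩ := theoremA (AL_ev (IntA_ev U F) cs)
    (fun i => (σ.2 i).1) Gs hGs hmem
  -- the projection
  have hπ : ∃ π : UK U L → UK U F, (∀ x y, π (x + y) = π x + π y) ∧
      (∀ x z, π (x * cs z) = z * π x) ∧ π 1 = 1 := by
    let _ := cs.toAlgebra
    obtain ⟨p, hp⟩ := LinearMap.exists_leftInverse_of_injective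
      (Algebra.linearMap (UK U F) (UK U L)) (by
        rw [LinearMap.ker_eq_bot]
        exact cs.injective)
    refine ⟨p, fun x y => map_add p x y, fun x z => ?_, ?_⟩
    · have h5 : x * cs z = z • x := by
        rw [Algebra.smul_def, mul_comm]
        rfl
      rw [h5, map_smul, smul_eq_mul]
    · have h5 := congrArg (fun f => f (1 : UK U F)) hp
      simpa using h5
  obtain ⟨π, hadd, hmul, hone⟩ := hπ
  let q₀ : ∀ i, Qs Q i := fun i N => Classical.arbitrary (Q N i)
  have hne : ∀ i : Fin σ.1, (σ.2 i).1.parts.Nonempty := by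
    intro i
    apply Finpartition.parts_nonempty
    exact (Finset.univ_nonempty (α := ι)).ne_empty
  have h6 := fun i : Fin σ.1 => project_prod (IntA_ev (Q := Q) U F) cs q₀ π hadd hmul (g' i)
    (hg'A i) (hg'D i) (σ.2 i).1.parts (hne i) 1
  choose m a haA haD ha using h6
  let e := (finSigmaFinEquiv (n := m)).symm
  have hT : ∀ x, star U F T x =
      ∑ t : Fin (∑ i, m i), ∏ I ∈ (σ.2 (e t).1).1.parts, a (e t).1 (e t).2 I x := by
    intro x
    have h0 : π 0 = 0 := by
      have := hadd 0 0
      simpa using this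
    let π' : UK U L →+ UK U F := ⟨⟨π, h0⟩, hadd⟩
    have h7 : star U F T x = π (cs (star U F T x)) := by
      have h8 := hmul 1 (star U F T x)
      rw [one_mul, hone, mul_one] at h8
      exact h8.symm
    have h9 : cs (star U F T x) = ∑ i, ∏ I ∈ (σ.2 i).1.parts, g' i I x := by
      have h10 := congrFun (hGT.symm.trans hg'T) x
      rw [Finset.sum_apply] at h10
      simp only [Finset.prod_apply] at h10
      exact h10
    rw [h7, h9]
    have h11 : π (∑ i, ∏ I ∈ (σ.2 i).1.parts, g' i I x) =
        ∑ i, π (∏ I ∈ (σ.2 i).1.parts, g' i I x) := map_sum π' _ Finset.univ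
    rw [h11, Equiv.sum_comp e (fun p : (Σ i, Fin (m i)) =>
      ∏ I ∈ (σ.2 p.1).1.parts, a p.1 p.2 I x), Fintype.sum_sigma]
    apply Finset.sum_congr rfl
    intro i _
    rw [← ha i x, one_mul]
  have h12 := internal_down U F (fun t => (σ.2 (e t).1).1) T
    (fun t I => a (e t).1 (e t).2 I) (fun t I => haA _ _ _) (fun t I => haD _ _ _) hT
  have h13 : ∀ᶠ N in (U : Filter ℕ), (∑ i, m i) + 1 ≤ N := hU (Filter.eventually_ge_atTop _)
  obtain ⟨N, hN1, hN2⟩ := (h12.and h13).exists
  exact hN N ⟨∑ i, m i, hN2, fun t => (σ.2 (e t).1).1, fun t => (σ.2 (e t).1).2, hN1⟩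

end

end Pool.Agent.K3h1.SM
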