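import Pool.Agent.K3h1.SM.Generic
import Pool.Agent.K3h1.SM.Ext

set_option autoImplicit false
set_option linter.unusedSectionVars false

/-!
# Generic compressions of bounded size detect the rank
-/

namespace Pool.Agent.K3h1.SM

open Finset Pool.Agent.H346R3.RR

universe u v w x

section

variable {ι : Type*} [DecidableEq ι] [Fintype ι]

/-- the array of values of the multilinear extension at tuples of generic points -/
noncomputable def garr (F : Type u) [Field F] (Q : ι → Type w) [∀ i, Fintype (Q i)]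
    [∀ i, DecidableEq (Q i)] (J : ι → Type x) (T : (∀ i, Q i) → F) :
    (∀ i, J i) → KJ F Q J :=
  fun j => mext (fun x => cF F Q J (T x)) (fun i => gp F Q J i (j i))

theorem Th_garr (F : Type u) [Field F] (Q : ι → Type w) [∀ i, Fintype (Q i)]
    [∀ i, DecidableEq (Q i)] (J J' : ι → Type x) (T : (∀ i, Q i) → F)
    (e : ∀ i, J i → J' i) (he : ∀ i, Function.Injective (e i)) (j : ∀ i, J i) :
    Th F Q e he (garr F Q J T j) = garr F Q J' T (fun i => e i (j i)) := by
  unfold garr mext
  rw [map_sum]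
  apply Finset.sum_congr rfl
  intro x _
  rw [map_mul, Th_cF, map_prod]
  congr 1
  apply Finset.prod_congr rfl
  intro i _
  rw [Th_gp]

theorem box_of_fin (F : Type u) [Field F] (Q : ι → Type w) [∀ i, Fintype (Q i)]
    [∀ i, DecidableEq (Q i)] (T : (∀ i, Q i) → F)
    (R : Set (Finpartition (Finset.univ : Finset ι))) (l : ℕ) (N : ℕ)
    (hD : Dec R l (fun _ => True) (garr F Q (fun _ => Fin (N + 1)) T))
    (X : ι → Finset ℕ) (hX : ∀ i, (X i).card ≤ N + 1) :
    Dec R l (fun x => ∀ i, x i ∈ X i) (garr F Q (fun _ => ℕ) T) := by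
  classical
  have h1 : ∀ i, ∃ t : Finset ℕ, X i ⊆ t ∧ t.card = N + 1 := fun i =>
    Infinite.exists_superset_card_eq (X i) (N + 1) (hX i)
  choose t ht1 ht2 using h1
  let e : ∀ _ : ι, Fin (N + 1) → ℕ := fun i => (t i).orderEmbOfFin (ht2 i)
  have he : ∀ i, Function.Injective (e i) := fun i => ((t i).orderEmbOfFin (ht2 i)).injective
  have hr : ∀ i, ∀ n ∈ X i, ∃ a, e i a = n := by
    intro i n hn
    have h2 : n ∈ Set.range ((t i).orderEmbOfFin (ht2 i)) := by
      rw [Finset.range_orderEmbOfFin]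
      exact ht1 i hn
    exact h2
  let r : ∀ _ : ι, ℕ → Fin (N + 1) := fun i => Function.invFun (e i)
  have hr2 : ∀ i, ∀ n ∈ X i, e i (r i n) = n := fun i n hn => Function.invFun_eq (hr i n hn)
  obtain ⟨k, hk, P, hP, g, hg, hT⟩ := hD
  refine ⟨k, hk, P, hP, fun a I x => Th F Q e he (g a I (fun i => r i (x i))), ?_, ?_⟩
  · intro a I x y hxy
    apply congrArg (Th F Q e he)
    apply hg a I
    intro i hi
    change r i (x i) = r i (y i)
    rw [hxy i hi]
  · intro x hx
    have h3 := hT (fun i => r i (x i)) trivial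
    have h4 := congrArg (Th F Q e he) h3
    rw [Th_garr, map_sum] at h4
    have h5 : (fun i => e i (r i (x i))) = x := funext (fun i => hr2 i (x i) (hx i))
    rw [h5] at h4
    rw [h4]
    apply Finset.sum_congr rfl
    intro a _
    rw [map_prod]

/-- generic compressions of bounded size detect the rank over the large field -/
theorem exists_size (R : Set (Finpartition (Finset.univ : Finset ι))) (l : ℕ) :
    ∃ k : ℕ, ∀ (F : Type u) [Field F] (Q : ι → Type w) [∀ i, Fintype (Q i)]
      [∀ i, DecidableEq (Q i)] (T : (∀ i, Q i) → F),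
      Dec R l (fun _ => True) (garr F Q (fun _ => Fin k) T) →
      Dec R l (fun _ => True) (fun x => cF F Q (fun _ => ℕ) (T x)) := by
  classical
  by_contra hcon
  push Not at hcon
  choose F instF Q inst1 inst2 T hD hN using hcon
  have h1 := theoremC (ι := ι) (K := fun N => KJ (F (N + 1)) (Q (N + 1)) (fun _ => ℕ))
    (Q := fun _ _ => ℕ) R l (fun N => garr (F (N + 1)) (Q (N + 1)) (fun _ => ℕ) (T (N + 1)))
    (fun N X hX => box_of_fin (F (N + 1)) (Q (N + 1)) (T (N + 1)) R l N (hD (N + 1)) X
      (fun i => (hX i).trans (Nat.le_succ N)))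
  obtain ⟨N, k, hk, P, hP, h⟩ := h1
  exact hN (N + 1) ⟨k, hk, P, hP, generic_to_tensor (F (N + 1)) (Q (N + 1)) P _ h⟩

/-- **generic compressions of bounded size detect the rank over the base field** -/
theorem exists_size_base [Nonempty ι] (R : Set (Finpartition (Finset.univ : Finset ι))) (l : ℕ) :
    ∃ k G : ℕ, ∀ (F : Type u) [Field F] (Q : ι → Type w) [∀ i, Fintype (Q i)]
      [∀ i, DecidableEq (Q i)] [∀ i, Nonempty (Q i)] (T : (∀ i, Q i) → F),
      Dec R l (fun _ => True) (garr F Q (fun _ => Fin k) T) → Dec R G (fun _ => True) T := by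
  obtain ⟨k, hk⟩ := exists_size.{u, w} R l
  obtain ⟨G, hG⟩ := rankExt R l
  exact ⟨k, G, fun F _ Q _ _ _ T h => hG F _ (cF F Q (fun _ => ℕ)) Q T (hk F Q T h)⟩

end

end Pool.Agent.K3h1.SM
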