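import Pool.Agent.H346R3.RR.TheoremC

set_option autoImplicit false
set_option linter.unusedSectionVars false

/-!
# Infinite fields: specialization
-/

namespace Pool.Agent.K3h1.SM

open Finset Pool.Agent.H346R3.RR

universe u v w x

section

variable {ι : Type*} [DecidableEq ι] [Fintype ι]

/-- over an infinite field a decomposition over a field of rational functions can be
specialized -/
theorem specialize (F : Type u) [Field F] [Infinite F] (Q : ι → Type w) [∀ i, Fintype (Q i)]
    {σ : Type v} {k : ℕ} (P : Fin k → Finpartition (Finset.univ : Finset ι))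
    (T : (∀ i, Q i) → F)
    (h : DecS P (fun _ => True) (fun x =>
      algebraMap (MvPolynomial σ F) (FractionRing (MvPolynomial σ F)) (MvPolynomial.C (T x)))) :
    DecS P (fun _ => True) T := by
  classical
  obtain ⟨g, hg, hT⟩ := h
  obtain ⟨b, hb⟩ := IsLocalization.exist_integer_multiples_of_finite
    (nonZeroDivisors (MvPolynomial σ F))
    (fun a : Fin k × Finset ι × (∀ i, Q i) => g a.1 a.2.1 a.2.2)
  have hb1 : ∀ i I x, ∃ r : MvPolynomial σ F,
      algebraMap _ (FractionRing (MvPolynomial σ F)) r =
        algebraMap _ (FractionRing (MvPolynomial σ F)) b.1 * g i I x := by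
    intro i I x
    obtain ⟨r, hr⟩ := hb (i, I, x)
    refine ⟨r, ?_⟩
    rw [hr, Algebra.smul_def]
  choose g' hg' using hb1
  have hinj : Function.Injective (algebraMap (MvPolynomial σ F)
    (FractionRing (MvPolynomial σ F))) := IsFractionRing.injective _ _
  have hb0 : (b.1 : MvPolynomial σ F) ≠ 0 := nonZeroDivisors.ne_zero b.2
  have hz : ∃ z : σ → F, MvPolynomial.eval z b.1 ≠ 0 := by
    by_contra hcon
    push Not at hcon
    apply hb0
    apply MvPolynomial.funext
    intro z
    rw [hcon z, map_zero]
  obtain ⟨z, hz⟩ := hz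
  let n : Fin k → ℕ := fun i => (P i).parts.card
  let M := ∑ i, n i
  have hn : ∀ i, n i ≤ M := fun i =>
    Finset.single_le_sum (f := n) (fun _ _ => Nat.zero_le _) (Finset.mem_univ i)
  have hpoly : ∀ x, b.1 ^ M * MvPolynomial.C (T x) =
      ∑ i, b.1 ^ (M - n i) * ∏ I ∈ (P i).parts, g' i I x := by
    intro x
    apply hinj
    have hTx : algebraMap (MvPolynomial σ F) (FractionRing (MvPolynomial σ F))
        (MvPolynomial.C (T x)) = ∑ i, ∏ I ∈ (P i).parts, g i I x := hT x trivial
    rw [map_mul, map_sum, hTx, Finset.mul_sum]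
    apply Finset.sum_congr rfl
    intro i _
    rw [map_mul, map_prod]
    simp only [hg']
    rw [Finset.prod_mul_distrib, Finset.prod_const, map_pow, map_pow, ← mul_assoc, ← pow_add,
      Nat.sub_add_cancel (hn i)]
  refine ⟨fun i I x => MvPolynomial.eval z (g' i I x) / MvPolynomial.eval z b.1, ?_, ?_⟩
  · intro i I x y hxy
    change MvPolynomial.eval z (g' i I x) / _ = MvPolynomial.eval z (g' i I y) / _
    have h1 : g' i I x = g' i I y := by
      apply hinj
      rw [hg', hg', hg i I x y hxy]
    rw [h1]
  · intro x _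
    have h1 := congrArg (MvPolynomial.eval z) (hpoly x)
    rw [map_mul, map_pow, MvPolynomial.eval_C, map_sum] at h1
    have h2 : MvPolynomial.eval z b.1 ^ M ≠ 0 := pow_ne_zero _ hz
    apply mul_left_cancel₀ h2
    rw [h1, Finset.mul_sum]
    apply Finset.sum_congr rfl
    intro i _
    rw [map_mul, map_pow, map_prod, Finset.prod_div_distrib, Finset.prod_const]
    have h3 : MvPolynomial.eval z b.1 ^ M = MvPolynomial.eval z b.1 ^ (M - n i) *
        MvPolynomial.eval z b.1 ^ (n i) := by
      rw [← pow_add, Nat.sub_add_cancel (hn i)]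
    rw [h3]
    have h4 : MvPolynomial.eval z b.1 ^ (P i).parts.card ≠ 0 := pow_ne_zero _ hz
    change _ = MvPolynomial.eval z b.1 ^ (M - n i) * MvPolynomial.eval z b.1 ^ (P i).parts.card * _
    rw [mul_assoc, mul_div_cancel₀ _ h4]

end

end Pool.Agent.K3h1.SM
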