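import Pool.Agent.K3h1.SM.Compress
import Pool.Agent.K3h1.SM.Choose
import Pool.Agent.K3h1.SM.Spec

set_option autoImplicit false
set_option linter.unusedSectionVars false

/-!
# Several tensors: a box of linear size on which all combinations have high rank
-/

namespace Pool.Agent.K3h1.SM

open Finset Pool.Agent.H346R3.RR

universe u v w x

section

variable {ι : Type} [DecidableEq ι] [Fintype ι]

/-- the choice of the box for one field -/
theorem core_field (R : Set (Finpartition (Finset.univ : Finset ι))) (l G k : ℕ)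
    (F : Type u) [Field F] (Q : ι → Type w) [∀ i, Fintype (Q i)] [∀ i, DecidableEq (Q i)]
    [∀ i, Nonempty (Q i)]
    (hk : ∀ T : (∀ i, Q i) → F, Dec R l (fun _ => True) (garr F Q (fun _ => Fin k) T) →
      Dec R G (fun _ => True) T)
    (s : ℕ) (T : Fin s → (∀ i, Q i) → F)
    (hT : ∀ a : Fin s → F, a ≠ 0 → ¬ Dec R G (fun _ => True) (∑ t, a t • T t)) :
    ∃ X : ∀ i, Finset (Q i), (∀ i, (X i).card ≤ s * Fintype.card (∀ _ : ι, Fin k)) ∧
      ∀ a : Fin s → F, a ≠ 0 → ¬ Dec R l (fun x => ∀ i, x i ∈ X i) (∑ t, a t • T t) := by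
  classical
  obtain ⟨X, p', hX, hp', heq⟩ := choose_box (K := KJ F Q (fun _ => Fin k))
    (J := fun _ : ι => Fin k) (fun (t : Fin s) x => cF F Q (fun _ => Fin k) (T t x))
    (fun i j => gp F Q (fun _ => Fin k) i j)
  rw [Fintype.card_fin] at hX
  refine ⟨X, hX, fun a ha hD => hT a ha (hk _ ?_)⟩
  have h1 := Dec_mext X (Dec_map (cF F Q (fun _ => Fin k)) hD) p' hp'
  have h2 : (fun y : (∀ _ : ι, Fin k) =>
      mext (fun x => cF F Q (fun _ => Fin k) ((∑ t, a t • T t) x)) (fun i => p' i (y i))) =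
      garr F Q (fun _ => Fin k) (∑ t, a t • T t) := by
    have h3 : ∀ v, mext (fun x => cF F Q (fun _ => Fin k) ((∑ t, a t • T t) x)) v =
        ∑ t, cF F Q (fun _ => Fin k) (a t) *
          mext (fun x => cF F Q (fun _ => Fin k) (T t x)) v := by
      intro v
      have h4 : (fun x => cF F Q (fun _ => Fin k) ((∑ t, a t • T t) x)) =
          fun x => ∑ t, cF F Q (fun _ => Fin k) (a t) * cF F Q (fun _ => Fin k) (T t x) := by
        funext x
        rw [Finset.sum_apply, map_sum]
        apply Finset.sum_congr rfl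
        intro t _
        rw [Pi.smul_apply, smul_eq_mul, map_mul]
      rw [h4, mext_sum]
      apply Finset.sum_congr rfl
      intro t _
      unfold mext
      rw [Finset.mul_sum]
      apply Finset.sum_congr rfl
      intro x _
      ring
    funext y
    unfold garr
    rw [h3, h3]
    apply Finset.sum_congr rfl
    intro t _
    rw [heq t y]
  rw [h2] at h1
  exact h1

/-- the main result in terms of decompositions: all fields with a uniform threshold `G`, and
infinite fields with threshold `l` -/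
theorem core [Nonempty ι] (R : Set (Finpartition (Finset.univ : Finset ι))) (l : ℕ) :
    ∃ c G : ℕ, ∀ (F : Type u) [Field F] (Q : ι → Type w) [∀ i, Fintype (Q i)]
      [∀ i, Nonempty (Q i)] (s : ℕ) (T : Fin s → (∀ i, Q i) → F),
      ((∀ a : Fin s → F, a ≠ 0 → ¬ Dec R G (fun _ => True) (∑ t, a t • T t)) ∨
        (Infinite F ∧ ∀ a : Fin s → F, a ≠ 0 → ¬ Dec R l (fun _ => True) (∑ t, a t • T t))) →
      ∃ X : ∀ i, Finset (Q i), (∀ i, (X i).card ≤ s * c) ∧
        ∀ a : Fin s → F, a ≠ 0 → ¬ Dec R l (fun x => ∀ i, x i ∈ X i) (∑ t, a t • T t) := by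
  classical
  obtain ⟨k, hk⟩ := exists_size.{u, w} R l
  obtain ⟨G, hG⟩ := rankExt.{u, max u w, w} R l
  refine ⟨Fintype.card (∀ _ : ι, Fin k), G, ?_⟩
  intro F _ Q _ _ s T hT
  rcases hT with hT | ⟨hF, hT⟩
  · exact core_field R l G k F Q
      (fun T h => hG F _ (cF F Q (fun _ => ℕ)) Q T (hk F Q T h)) s T hT
  · refine core_field R l l k F Q (fun T h => ?_) s T hT
    obtain ⟨m, hm, P, hP, h1⟩ := hk F Q T h
    exact ⟨m, hm, P, hP, specialize F Q P T h1⟩

end

end Pool.Agent.K3h1.SM
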