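import Pool.Agent.H346R3.RR.TheoremC

set_option autoImplicit false
set_option linter.unusedSectionVars false

/-!
# The multilinear extension of a tensor
-/

namespace Pool.Agent.K3h1.SM

open Finset Pool.Agent.H346R3.RR

universe u v w

section

variable {ι : Type*} [DecidableEq ι] [Fintype ι] {Q : ι → Type*} [∀ i, Fintype (Q i)]
variable [∀ i, DecidableEq (Q i)] {K : Type*} [Field K]

/-- the multilinear extension of a tensor -/
def mext (T : (∀ i, Q i) → K) (v : ∀ i, Q i → K) : K := ∑ x : (∀ i, Q i), T x * ∏ i, v i (x i)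

theorem mext_update (T : (∀ i, Q i) → K) (v : ∀ i, Q i → K) (β : ι) (w : Q β → K) :
    mext T (Function.update v β w) =
      ∑ y : Q β, w y * mext T (Function.update v β (Pi.single y 1)) := by
  unfold mext
  simp_rw [Finset.mul_sum]
  rw [Finset.sum_comm]
  apply Finset.sum_congr rfl
  intro x _
  have h1 : ∀ w' : Q β → K, ∏ i, (Function.update v β w') i (x i) =
      w' (x β) * ∏ i ∈ Finset.univ.erase β, v i (x i) := by
    intro w'
    rw [← Finset.mul_prod_erase Finset.univ _ (Finset.mem_univ β)]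
    congr 1
    · simp
    · apply Finset.prod_congr rfl
      intro i hi
      rw [Function.update_of_ne (Finset.ne_of_mem_erase hi)]
  simp_rw [h1]
  rw [Finset.sum_eq_single (x β)]
  · simp only [Pi.single_eq_same]
    ring
  · intro y _ hy
    rw [Pi.single_eq_of_ne (Ne.symm hy)]
    ring
  · intro h
    exact absurd (Finset.mem_univ _) h

theorem mext_single (T : (∀ i, Q i) → K) (y : ∀ i, Q i) :
    mext T (fun i => Pi.single (y i) 1) = T y := by
  unfold mext
  rw [Finset.sum_eq_single y]
  · simp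
  · intro x _ hx
    have h1 : ∃ i, x i ≠ y i := by
      by_contra h
      push Not at h
      exact hx (funext h)
    obtain ⟨i, hi⟩ := h1
    rw [Finset.prod_eq_zero (Finset.mem_univ i), mul_zero]
    exact Pi.single_eq_of_ne hi _
  · intro h
    exact absurd (Finset.mem_univ _) h

theorem mext_sum {τ : Type*} (S : Finset τ) (f : τ → (∀ i, Q i) → K) (v : ∀ i, Q i → K) :
    mext (fun x => ∑ t ∈ S, f t x) v = ∑ t ∈ S, mext (f t) v := by
  unfold mext
  rw [Finset.sum_comm]
  apply Finset.sum_congr rfl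
  intro x _
  rw [Finset.sum_mul]

theorem mext_congr_box {T T' : (∀ i, Q i) → K} {v : ∀ i, Q i → K} (X : ∀ i, Finset (Q i))
    (hv : ∀ i x, x ∉ X i → v i x = 0) (h : ∀ x, (∀ i, x i ∈ X i) → T x = T' x) :
    mext T v = mext T' v := by
  unfold mext
  apply Finset.sum_congr rfl
  intro x _
  by_cases hx : ∀ i, x i ∈ X i
  · rw [h x hx]
  · push Not at hx
    obtain ⟨i, hi⟩ := hx
    rw [Finset.prod_eq_zero (Finset.mem_univ i) (hv i _ hi), mul_zero, mul_zero]

variable (q₀ : ∀ i, Q i)

/-- the partial multilinear extension on the coordinates in `J` -/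
def mextI (J : Finset ι) (f : (∀ i, Q i) → K) (v : ∀ i, Q i → K) : K :=
  ∑ x ∈ Finset.univ.filter (fun x : (∀ i, Q i) => ∀ i, i ∉ J → x i = q₀ i),
    f x * ∏ i ∈ J, v i (x i)

theorem mextI_univ (f : (∀ i, Q i) → K) (v : ∀ i, Q i → K) :
    mextI q₀ Finset.univ f v = mext f v := by
  unfold mextI mext
  apply Finset.sum_congr
  · ext x
    simp
  · intro x _
    rfl

theorem mextI_empty (v : ∀ i, Q i → K) : mextI q₀ ∅ (1 : (∀ i, Q i) → K) v = 1 := by
  unfold mextI
  have h1 : Finset.univ.filter (fun x : (∀ i, Q i) => ∀ i, i ∉ (∅ : Finset ι) → x i = q₀ i) =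
      {q₀} := by
    ext x
    simp only [Finset.mem_filter, Finset.mem_univ, true_and, Finset.mem_singleton,
      Finset.notMem_empty, not_false_eq_true, forall_true_left]
    exact ⟨fun h => funext h, fun h i => by rw [h]⟩
  rw [h1]
  simp

theorem mextI_congr (J : Finset ι) (f : (∀ i, Q i) → K) (v v' : ∀ i, Q i → K)
    (h : ∀ i ∈ J, v i = v' i) : mextI q₀ J f v = mextI q₀ J f v' := by
  unfold mextI
  apply Finset.sum_congr rfl
  intro x _
  congr 1
  apply Finset.prod_congr rfl
  intro i hi
  rw [h i hi]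

theorem mextI_union {J J' : Finset ι} (hJ : Disjoint J J') {f g : (∀ i, Q i) → K}
    (hf : f ∈ Dep Q K J) (hg : g ∈ Dep Q K J') (v : ∀ i, Q i → K) :
    mextI q₀ (J ∪ J') (f * g) v = mextI q₀ J f v * mextI q₀ J' g v := by
  unfold mextI
  rw [Finset.sum_mul_sum, ← Finset.sum_product']
  symm
  apply Finset.sum_bij' (i := fun (p : (∀ i, Q i) × (∀ i, Q i)) _ => J.piecewise p.1 p.2)
    (j := fun z _ => (J.piecewise z q₀, J'.piecewise z q₀))
  · intro p hp
    rw [Finset.mem_product, Finset.mem_filter, Finset.mem_filter] at hp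
    rw [Finset.mem_filter]
    refine ⟨Finset.mem_univ _, fun i hi => ?_⟩
    rw [Finset.mem_union, not_or] at hi
    rw [Finset.piecewise_eq_of_notMem _ _ _ hi.1]
    exact hp.2.2 i hi.2
  · intro z hz
    rw [Finset.mem_product, Finset.mem_filter, Finset.mem_filter]
    refine ⟨⟨Finset.mem_univ _, fun i hi => ?_⟩, ⟨Finset.mem_univ _, fun i hi => ?_⟩⟩
    · exact Finset.piecewise_eq_of_notMem _ _ _ hi
    · exact Finset.piecewise_eq_of_notMem _ _ _ hi
  · intro p hp
    rw [Finset.mem_product, Finset.mem_filter, Finset.mem_filter] at hp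
    apply Prod.ext
    · funext i
      by_cases hi : i ∈ J
      · simp [hi]
      · simp only [Finset.piecewise_eq_of_notMem _ _ _ hi]
        exact (hp.1.2 i hi).symm
    · funext i
      by_cases hi : i ∈ J'
      · have hi' : i ∉ J := fun h => Finset.disjoint_left.mp hJ h hi
        simp [hi, hi']
      · simp only [Finset.piecewise_eq_of_notMem _ _ _ hi]
        exact (hp.2.2 i hi).symm
  · intro z hz
    rw [Finset.mem_filter] at hz
    funext i
    by_cases hi : i ∈ J
    · simp [hi]
    · by_cases hi' : i ∈ J'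
      · simp [hi, hi']
      · simp only [Finset.piecewise_eq_of_notMem _ _ _ hi, Finset.piecewise_eq_of_notMem _ _ _ hi']
        exact (hz.2 i (by simp [hi, hi'])).symm
  · intro p hp
    rw [Finset.mem_product, Finset.mem_filter, Finset.mem_filter] at hp
    rw [Pi.mul_apply, Finset.prod_union hJ]
    have h1 : f p.1 = f (J.piecewise p.1 p.2) := by
      apply hf
      intro i hi
      simp [hi]
    have h2 : g p.2 = g (J.piecewise p.1 p.2) := by
      apply hg
      intro i hi
      have hi' : i ∉ J := fun h => Finset.disjoint_left.mp hJ h hi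
      simp [hi']
    have h3 : ∏ i ∈ J, v i (p.1 i) = ∏ i ∈ J, v i (J.piecewise p.1 p.2 i) := by
      apply Finset.prod_congr rfl
      intro i hi
      simp [hi]
    have h4 : ∏ i ∈ J', v i (p.2 i) = ∏ i ∈ J', v i (J.piecewise p.1 p.2 i) := by
      apply Finset.prod_congr rfl
      intro i hi
      have hi' : i ∉ J := fun h => Finset.disjoint_left.mp hJ h hi
      simp [hi']
    rw [h1, h2, h3, h4]
    ring

theorem mextI_prod (S : Finset (Finset ι)) (hS : (S : Set (Finset ι)).PairwiseDisjoint id)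
    (g : Finset ι → ((∀ i, Q i) → K)) (hg : ∀ I ∈ S, g I ∈ Dep Q K I) (v : ∀ i, Q i → K) :
    (∏ I ∈ S, g I) ∈ Dep Q K (S.sup id) ∧
      mextI q₀ (S.sup id) (∏ I ∈ S, g I) v = ∏ I ∈ S, mextI q₀ I (g I) v := by
  classical
  induction S using Finset.induction_on with
  | empty =>
    refine ⟨?_, ?_⟩
    · intro x y _
      simp
    · rw [Finset.prod_empty, Finset.prod_empty, Finset.sup_empty]
      exact mextI_empty q₀ v
  | insert J S hJ ih =>
    have h1 := ih (hS.subset (by simp)) (fun I hI => hg I (by simp [hI]))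
    have hgJ := hg J (by simp)
    have hd : Disjoint J (S.sup id) := by
      rw [Finset.disjoint_sup_right]
      intro L hL
      exact hS (by simp) (by simp [hL]) (fun h => hJ (h ▸ hL))
    rw [Finset.prod_insert hJ, Finset.sup_insert, Finset.prod_insert hJ]
    have h4 : (id J ⊔ S.sup id : Finset ι) = J ∪ S.sup id := rfl
    rw [h4]
    refine ⟨mul_mem_Dep hgJ h1.1 Finset.subset_union_left Finset.subset_union_right, ?_⟩
    rw [mextI_union q₀ hd hgJ h1.1, h1.2]

theorem mext_prod (P : Finpartition (Finset.univ : Finset ι))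
    (g : Finset ι → ((∀ i, Q i) → K)) (hg : ∀ I, g I ∈ Dep Q K I) (v : ∀ i, Q i → K) :
    mext (fun x => ∏ I ∈ P.parts, g I x) v = ∏ I ∈ P.parts, mextI q₀ I (g I) v := by
  have h1 := (mextI_prod q₀ P.parts P.disjoint g (fun I _ => hg I) v).2
  rw [P.sup_parts, mextI_univ] at h1
  rw [← h1]
  congr 1
  funext x
  rw [Finset.prod_apply]

/-- a decomposition on a box gives a decomposition of the values of the multilinear extension at
points supported on the box -/
theorem DecS_mext [∀ i, Nonempty (Q i)] {Y : ι → Type*} {k : ℕ}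
    {P : Fin k → Finpartition (Finset.univ : Finset ι)}
    {T : (∀ i, Q i) → K} (X : ∀ i, Finset (Q i))
    (h : DecS P (fun x => ∀ i, x i ∈ X i) T)
    (p : ∀ i, Y i → Q i → K) (hp : ∀ i y x, x ∉ X i → p i y x = 0) :
    DecS P (fun _ => True) (fun y : (∀ i, Y i) => mext T (fun i => p i (y i))) := by
  classical
  obtain ⟨g, hg, hT⟩ := h
  let q₀ : ∀ i, Q i := fun i => Classical.arbitrary (Q i)
  refine ⟨fun t I y => mextI q₀ I (g t I) (fun i => p i (y i)), ?_, ?_⟩
  · intro t I x y hxy
    apply mextI_congr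
    intro i hi
    rw [hxy i hi]
  · intro y _
    change mext T (fun i => p i (y i)) =
      ∑ t, ∏ I ∈ (P t).parts, mextI q₀ I (g t I) (fun i => p i (y i))
    rw [mext_congr_box (T' := fun x => ∑ t, ∏ I ∈ (P t).parts, g t I x) X
      (fun i x hx => hp i (y i) x hx) (fun x hx => hT x hx), mext_sum]
    apply Finset.sum_congr rfl
    intro t _
    exact mext_prod q₀ (P t) (g t) (fun I => hg t I) _

/-- the same for decompositions with less than `l` terms -/
theorem Dec_mext [∀ i, Nonempty (Q i)] {Y : ι → Type*}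
    {R : Set (Finpartition (Finset.univ : Finset ι))} {l : ℕ}
    {T : (∀ i, Q i) → K} (X : ∀ i, Finset (Q i))
    (h : Dec R l (fun x => ∀ i, x i ∈ X i) T)
    (p : ∀ i, Y i → Q i → K) (hp : ∀ i y x, x ∉ X i → p i y x = 0) :
    Dec R l (fun _ => True) (fun y : (∀ i, Y i) => mext T (fun i => p i (y i))) := by
  obtain ⟨k, hk, P, hP, h⟩ := h
  exact ⟨k, hk, P, hP, DecS_mext X h p hp⟩

/-- change of the field -/
theorem Dec_map {L : Type*} [Field L] (c : K →+* L)
    {R : Set (Finpartition (Finset.univ : Finset ι))} {l : ℕ} {B : (∀ i, Q i) → Prop}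
    {T : (∀ i, Q i) → K} (h : Dec R l B T) : Dec R l B (fun x => c (T x)) := by
  obtain ⟨k, hk, P, hP, g, hg, hT⟩ := h
  refine ⟨k, hk, P, hP, fun i I x => c (g i I x), ?_, ?_⟩
  · intro i I x y hxy
    exact congrArg c (hg i I x y hxy)
  · intro x hx
    change c (T x) = ∑ i, ∏ I ∈ (P i).parts, c (g i I x)
    rw [hT x hx, map_sum]
    simp only [map_prod]

end

end Pool.Agent.K3h1.SM
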