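import Pool.Agent.K3h1.SM.Gen

set_option autoImplicit false
set_option linter.unusedSectionVars false

/-!
# Generic points and the generic compression of a tensor
-/

namespace Pool.Agent.K3h1.SM

open Finset Pool.Agent.H346R3.RR

universe u v w x

section

variable {ι : Type*}

/-- the rational function field in the coordinates of generic points -/
abbrev KJ (F : Type u) [Field F] (Q : ι → Type w) (J : ι → Type x) : Type _ :=
  FractionRing (MvPolynomial (Σ i, Q i × J i) F)

variable (F : Type u) [Field F] (Q : ι → Type w) (J : ι → Type x)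

/-- the inclusion of the base field -/
noncomputable def cF : F →+* KJ F Q J :=
  (algebraMap (MvPolynomial (Σ i, Q i × J i) F) (KJ F Q J)).comp MvPolynomial.C

/-- the generic points -/
noncomputable def gp (i : ι) (j : J i) (y : Q i) : KJ F Q J :=
  algebraMap (MvPolynomial (Σ i, Q i × J i) F) (KJ F Q J) (MvPolynomial.X ⟨i, (y, j)⟩)

variable {J} {J' : ι → Type x}

/-- injections of the index sets induce homomorphisms of the fields -/
noncomputable def Th (e : ∀ i, J i → J' i) (he : ∀ i, Function.Injective (e i)) :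
    KJ F Q J →+* KJ F Q J' :=
  IsFractionRing.map (j := (MvPolynomial.rename (R := F)
    (fun v : (Σ i, Q i × J i) => (⟨v.1, (v.2.1, e v.1 v.2.2)⟩ : Σ i, Q i × J' i))).toRingHom) (by
      apply MvPolynomial.rename_injective
      rintro ⟨i, y, j⟩ ⟨i', y', j'⟩ h
      simp only [Sigma.mk.injEq] at h
      obtain ⟨rfl, h⟩ := h
      rw [heq_eq_eq, Prod.mk.injEq] at h
      rw [h.1, he _ h.2])

theorem Th_algebraMap (e : ∀ i, J i → J' i) (he : ∀ i, Function.Injective (e i))
    (a : MvPolynomial (Σ i, Q i × J i) F) :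
    Th F Q e he (algebraMap _ (KJ F Q J) a) = algebraMap _ (KJ F Q J') (MvPolynomial.rename
      (fun v : (Σ i, Q i × J i) => (⟨v.1, (v.2.1, e v.1 v.2.2)⟩ : Σ i, Q i × J' i)) a) := by
  unfold Th IsFractionRing.map
  rw [IsLocalization.map_eq]
  rfl

theorem Th_cF (e : ∀ i, J i → J' i) (he : ∀ i, Function.Injective (e i)) (a : F) :
    Th F Q e he (cF F Q J a) = cF F Q J' a := by
  unfold cF
  rw [RingHom.comp_apply, Th_algebraMap, MvPolynomial.rename_C]
  rfl

theorem Th_gp (e : ∀ i, J i → J' i) (he : ∀ i, Function.Injective (e i)) (i : ι) (j : J i)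
    (y : Q i) : Th F Q e he (gp F Q J i j y) = gp F Q J' i (e i j) y := by
  unfold gp
  rw [Th_algebraMap, MvPolynomial.rename_X]

end

section

variable {ι : Type*} [DecidableEq ι]
variable (F : Type u) [Field F] (Q : ι → Type w)

/-- generic points are dense -/
theorem dense (h : MvPolynomial (Σ i, Q i) (KJ F Q (fun _ => ℕ)))
    (h0 : ∀ n : ℕ, MvPolynomial.eval (fun v : (Σ i, Q i) => gp F Q (fun _ => ℕ) v.1 n v.2) h = 0) :
    h = 0 := by
  classical
  obtain ⟨b, hb⟩ := IsLocalization.exist_integer_multiples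
    (nonZeroDivisors (MvPolynomial (Σ i, Q i × ℕ) F)) h.support (fun m => h.coeff m)
  have h1 : ∀ m, ∃ r : MvPolynomial (Σ i, Q i × ℕ) F,
      algebraMap _ (KJ F Q (fun _ => ℕ)) r =
        algebraMap _ (KJ F Q (fun _ => ℕ)) b.1 * h.coeff m := by
    intro m
    by_cases hm : m ∈ h.support
    · obtain ⟨r, hr⟩ := hb m hm
      refine ⟨r, ?_⟩
      rw [hr, Algebra.smul_def]
    · refine ⟨0, ?_⟩
      rw [MvPolynomial.notMem_support_iff.mp hm, mul_zero, map_zero]
  choose c hc using h1
  have hinj : Function.Injective (algebraMap (MvPolynomial (Σ i, Q i × ℕ) F)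
    (KJ F Q (fun _ => ℕ))) := IsFractionRing.injective _ _
  have hb0 : algebraMap _ (KJ F Q (fun _ => ℕ)) b.1 ≠ 0 := by
    intro h2
    rw [← map_zero (algebraMap (MvPolynomial (Σ i, Q i × ℕ) F) (KJ F Q (fun _ => ℕ)))] at h2
    exact nonZeroDivisors.ne_zero b.2 (hinj h2)
  obtain ⟨n, hn⟩ := Infinite.exists_notMem_finset
    (h.support.biUnion (fun m => (c m).vars.image (fun w => w.2.2)))
  have h2 : ∑ m ∈ h.support, c m * ∏ v ∈ m.support,
      (MvPolynomial.X ⟨v.1, (v.2, n)⟩ : MvPolynomial (Σ i, Q i × ℕ) F) ^ m v = 0 := by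
    apply hinj
    have h3 := h0 n
    rw [MvPolynomial.eval_eq] at h3
    rw [map_zero, map_sum, ← mul_zero (algebraMap _ (KJ F Q (fun _ => ℕ)) b.1), ← h3,
      Finset.mul_sum]
    apply Finset.sum_congr rfl
    intro m _
    rw [map_mul, hc, map_prod, mul_assoc]
    congr 1
    congr 1
    apply Finset.prod_congr rfl
    intro v _
    rw [map_pow]
    rfl
  let φ : MvPolynomial (Σ i, Q i × ℕ) F →+* MvPolynomial (Σ i, Q i) (MvPolynomial (Σ i, Q i × ℕ) F) :=
    MvPolynomial.eval₂Hom (MvPolynomial.C.comp MvPolynomial.C)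
      (fun w => if w.2.2 = n then MvPolynomial.X ⟨w.1, w.2.1⟩
        else MvPolynomial.C (MvPolynomial.X w))
  have hφc : ∀ m ∈ h.support, φ (c m) = MvPolynomial.C (c m) := by
    intro m hm
    have h4 : φ (c m) = (MvPolynomial.C : MvPolynomial (Σ i, Q i × ℕ) F →+* _) (c m) := by
      apply MvPolynomial.hom_congr_vars (hp := rfl)
      · ext a
        simp [φ]
      · intro w hw _
        have h5 : w.2.2 ≠ n := by
          intro h6
          apply hn
          rw [Finset.mem_biUnion]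
          exact ⟨m, hm, Finset.mem_image.mpr ⟨w, hw, h6⟩⟩
        simp [φ, h5]
    exact h4
  have h3 : ∑ m ∈ h.support, MvPolynomial.monomial m (c m) = 0 := by
    have h4 := congrArg φ h2
    rw [map_sum, map_zero] at h4
    rw [← h4]
    apply Finset.sum_congr rfl
    intro m hm
    rw [map_mul, hφc m hm, map_prod, MvPolynomial.monomial_eq]
    congr 1
    rw [Finsupp.prod]
    apply Finset.prod_congr rfl
    intro v _
    rw [map_pow]
    congr 1
    simp [φ]
  by_contra hne
  obtain ⟨m, hm⟩ := MvPolynomial.ne_zero_iff.mp hne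
  have h4 := congrArg (MvPolynomial.coeff m) h3
  rw [MvPolynomial.coeff_sum, MvPolynomial.coeff_zero] at h4
  simp only [MvPolynomial.coeff_monomial] at h4
  rw [Finset.sum_ite_eq' h.support m c, if_pos (MvPolynomial.mem_support_iff.mpr hm)] at h4
  have h5 := hc m
  rw [h4, map_zero] at h5
  exact (mul_ne_zero hb0 hm) h5.symm

end

section

variable {ι : Type*} [DecidableEq ι] [Fintype ι]
variable (F : Type u) [Field F] (Q : ι → Type w)

/-- evaluation of polynomials at generic points -/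
noncomputable def pt (j : ι → ℕ) : (Σ i, Q i) → KJ F Q (fun _ => ℕ) :=
  fun v => gp F Q (fun _ => ℕ) v.1 (j v.1) v.2

/-- functions on tuples of indices given by polynomials in the generic points -/
noncomputable def PolA : Subalgebra (KJ F Q (fun _ => ℕ)) ((∀ _ : ι, ℕ) → KJ F Q (fun _ => ℕ)) where
  carrier := {f | ∃ h : MvPolynomial (Σ i, Q i) (KJ F Q (fun _ => ℕ)),
    ∀ j, f j = MvPolynomial.eval (pt F Q j) h}
  mul_mem' := by
    rintro _ _ ⟨h, hh⟩ ⟨h', hh'⟩
    exact ⟨h * h', fun j => by rw [Pi.mul_apply, hh, hh', map_mul]⟩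
  add_mem' := by
    rintro _ _ ⟨h, hh⟩ ⟨h', hh'⟩
    exact ⟨h + h', fun j => by rw [Pi.add_apply, hh, hh', map_add]⟩
  algebraMap_mem' := by
    intro r
    exact ⟨MvPolynomial.C r, fun j => by simp⟩

theorem mem_PolA {f : (∀ _ : ι, ℕ) → KJ F Q (fun _ => ℕ)} :
    f ∈ PolA F Q ↔ ∃ h : MvPolynomial (Σ i, Q i) (KJ F Q (fun _ => ℕ)),
      ∀ j, f j = MvPolynomial.eval (pt F Q j) h := Iff.rfl

/-- substitution of constants for the variables outside `I` -/
noncomputable def frz (I : Finset ι) (q : ι → ℕ)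
    (h : MvPolynomial (Σ i, Q i) (KJ F Q (fun _ => ℕ))) :
    MvPolynomial (Σ i, Q i) (KJ F Q (fun _ => ℕ)) :=
  MvPolynomial.bind₁ (fun v : (Σ i, Q i) => if v.1 ∈ I then MvPolynomial.X v else
    MvPolynomial.C (gp F Q (fun _ => ℕ) v.1 (q v.1) v.2)) h

theorem eval_frz (I : Finset ι) (q : ι → ℕ)
    (h : MvPolynomial (Σ i, Q i) (KJ F Q (fun _ => ℕ))) (z : (Σ i, Q i) → KJ F Q (fun _ => ℕ)) :
    MvPolynomial.eval z (frz F Q I q h) = MvPolynomial.eval (fun v => if v.1 ∈ I then z v else
      gp F Q (fun _ => ℕ) v.1 (q v.1) v.2) h := by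
  unfold frz
  change MvPolynomial.eval₂Hom (RingHom.id _) z _ = MvPolynomial.eval₂Hom (RingHom.id _) _ h
  rw [MvPolynomial.eval₂Hom_bind₁]
  congr 2
  funext v
  split_ifs <;> simp

theorem pt_piecewise (I : Finset ι) (q j : ι → ℕ) :
    pt F Q (I.piecewise j q) = fun v => if v.1 ∈ I then pt F Q j v else
      gp F Q (fun _ => ℕ) v.1 (q v.1) v.2 := by
  funext v
  unfold pt
  by_cases h : v.1 ∈ I
  · simp [h]
  · simp [h]

theorem PolA_ev : EvClosed (PolA F Q) := by
  intro I q f hf
  obtain ⟨h, hh⟩ := hf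
  refine ⟨frz F Q I q h, fun j => ?_⟩
  rw [ev_apply, hh, eval_frz, ← pt_piecewise]

variable [∀ i, Fintype (Q i)] [∀ i, DecidableEq (Q i)]

/-- the multilinear extension as a polynomial -/
noncomputable def Tpol (T : (∀ i, Q i) → KJ F Q (fun _ => ℕ)) :
    MvPolynomial (Σ i, Q i) (KJ F Q (fun _ => ℕ)) :=
  ∑ x : (∀ i, Q i), MvPolynomial.C (T x) * ∏ i, MvPolynomial.X ⟨i, x i⟩

theorem eval_Tpol (T : (∀ i, Q i) → KJ F Q (fun _ => ℕ)) (z : (Σ i, Q i) → KJ F Q (fun _ => ℕ)) :
    MvPolynomial.eval z (Tpol F Q T) = mext T (fun i y => z ⟨i, y⟩) := by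
  unfold Tpol mext
  rw [map_sum]
  apply Finset.sum_congr rfl
  intro x _
  rw [map_mul, MvPolynomial.eval_C, map_prod]
  simp only [MvPolynomial.eval_X]

/-- a decomposition of the array of values at all tuples of generic points gives a decomposition
of the tensor -/
theorem generic_to_tensor {k : ℕ} (P : Fin k → Finpartition (Finset.univ : Finset ι))
    (T : (∀ i, Q i) → KJ F Q (fun _ => ℕ))
    (h : DecS P (fun _ => True)
      (fun j : (∀ _ : ι, ℕ) => mext T (fun i => gp F Q (fun _ => ℕ) i (j i)))) :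
    DecS P (fun _ => True) T := by
  classical
  obtain ⟨g, hg, hgT⟩ := h
  have hmem : (∑ i, ∏ I ∈ (P i).parts, g i I) ∈ PolA F Q := by
    refine ⟨Tpol F Q T, fun j => ?_⟩
    rw [eval_Tpol, Finset.sum_apply]
    simp only [Finset.prod_apply]
    exact (hgT j trivial).symm
  obtain ⟨g', hg'A, hg'D, hg'T⟩ := theoremA (PolA_ev F Q) P g hg hmem
  choose h hh using hg'A
  let q₀ : ι → ℕ := fun _ => 0
  have h1 : ∀ i I j, g' i I j = MvPolynomial.eval (pt F Q j) (frz F Q I q₀ (h i I)) := by
    intro i I j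
    rw [eval_frz, ← pt_piecewise, ← hh]
    apply hg'D i I
    intro a ha
    simp [ha]
  have h2 : Tpol F Q T - ∑ i, ∏ I ∈ (P i).parts, frz F Q I q₀ (h i I) = 0 := by
    apply dense
    intro n
    have h3 : (fun v : (Σ i, Q i) => gp F Q (fun _ => ℕ) v.1 n v.2) =
        pt F Q (fun _ => n) := rfl
    rw [h3, map_sub, map_sum, sub_eq_zero, eval_Tpol]
    have h4 := hgT (fun _ => n) trivial
    have h5 := congrFun hg'T (fun _ => n)
    rw [Finset.sum_apply, Finset.sum_apply] at h5
    simp only [Finset.prod_apply] at h5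
    have h6 : mext T (fun i y => pt F Q (fun _ => n) ⟨i, y⟩) =
        ∑ i, ∏ I ∈ (P i).parts, g i I (fun _ => n) := h4
    rw [h6, h5]
    apply Finset.sum_congr rfl
    intro i _
    rw [map_prod]
    apply Finset.prod_congr rfl
    intro I _
    exact h1 i I _
  let E : (∀ i, Q i) → (Σ i, Q i) → KJ F Q (fun _ => ℕ) := fun y v =>
    (Pi.single (y v.1) (1 : KJ F Q (fun _ => ℕ)) : Q v.1 → _) v.2
  refine ⟨fun i I y => MvPolynomial.eval (E y) (frz F Q I q₀ (h i I)), ?_, ?_⟩
  · intro i I y y' hy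
    change MvPolynomial.eval (E y) (frz F Q I q₀ (h i I)) =
      MvPolynomial.eval (E y') (frz F Q I q₀ (h i I))
    rw [eval_frz, eval_frz]
    congr 2
    funext v
    by_cases hv : v.1 ∈ I
    · simp only [hv, if_true, E]
      rw [hy v.1 hv]
    · simp only [hv, if_false]
  · intro y _
    have h3 := congrArg (MvPolynomial.eval (E y)) h2
    rw [map_sub, map_zero, sub_eq_zero, eval_Tpol, map_sum] at h3
    rw [← mext_single T y]
    rw [show mext T (fun i => Pi.single (y i) 1) = mext T (fun i z => E y ⟨i, z⟩) from rfl, h3]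
    apply Finset.sum_congr rfl
    intro i _
    rw [map_prod]

end

end Pool.Agent.K3h1.SM
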